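import Pool.Agent.Q66.RX.Stm
import Pool.Agent.H434R3.CcDense

/-!
# Job PKF of project RX (MP_c93b6d_al)

A Fubini argument without sigma-finiteness: if all the integrals of `f γ * γ x` vanish, then so do
those of `f γ * (Fourier transform of w) γ * γ x`, by approximating `f` and `w` in the mean by
continuous functions of compact support.
-/

set_option autoImplicit false
set_option linter.unusedSectionVars false

open MeasureTheory Filter Topology Set
open Pool.Agent.Q66.RX

namespace Pool.Agent.Q149.RX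

theorem int_mul {A : Type} [MeasurableSpace A] {ν : Measure A} {f g : A → ℂ}
    (hf : Integrable f ν) (hg : AEStronglyMeasurable g ν) {C : ℝ} (hC : ∀ a, ‖g a‖ ≤ C) :
    Integrable (fun a => f a * g a) ν := by
  refine (hf.norm.mul_const C).mono' (hf.aestronglyMeasurable.mul hg) (ae_of_all _ fun a => ?_)
  show ‖f a * g a‖ ≤ ‖f a‖ * C
  rw [norm_mul]
  exact mul_le_mul_of_nonneg_left (hC a) (norm_nonneg _)

theorem norm_int_mul {A : Type} [MeasurableSpace A] {ν : Measure A} {f g : A → ℂ}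
    (hf : Integrable f ν) {C : ℝ} (hC : ∀ a, ‖g a‖ ≤ C) :
    ‖∫ a, f a * g a ∂ν‖ ≤ (∫ a, ‖f a‖ ∂ν) * C := by
  rw [← integral_mul_const]
  refine norm_integral_le_of_norm_le (hf.norm.mul_const C) (ae_of_all _ fun a => ?_)
  rw [norm_mul]
  exact mul_le_mul_of_nonneg_left (hC a) (norm_nonneg _)

theorem key {A B : Type} [TopologicalSpace A] [T2Space A] [LocallyCompactSpace A]
    [MeasurableSpace A] [BorelSpace A] [TopologicalSpace B] [T2Space B] [LocallyCompactSpace B]
    [MeasurableSpace B] [BorelSpace B] (ν : Measure A) [ν.Regular] (μ : Measure B) [μ.Regular]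
    (φ : A → B → ℂ) (hφ : Continuous fun q : A × B => φ q.1 q.2) (hb : ∀ a b, ‖φ a b‖ ≤ 1)
    (f : A → ℂ) (w : B → ℂ) (hf : Integrable f ν) (hw : Integrable w μ)
    (h0 : ∀ b, ∫ a, f a * φ a b ∂ν = 0) : ∫ a, f a * (∫ b, w b * φ a b ∂μ) ∂ν = 0 := by
  by_cases hI : Integrable (fun a => f a * (∫ b, w b * φ a b ∂μ)) ν
  swap
  · exact integral_undef hI
  by_contra hne
  have hpos : 0 < ‖∫ a, f a * (∫ b, w b * φ a b ∂μ) ∂ν‖ := norm_pos_iff.2 hne
  obtain ⟨K, hK⟩ : ∃ K : ℝ, K = ‖∫ a, f a * (∫ b, w b * φ a b ∂μ) ∂ν‖ := ⟨_, rfl⟩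
  obtain ⟨c, hc⟩ : ∃ c : ℝ, c = ∫ a, ‖f a‖ ∂ν := ⟨_, rfl⟩
  obtain ⟨d, hd⟩ : ∃ d : ℝ, d = ∫ b, ‖w b‖ ∂μ := ⟨_, rfl⟩
  rw [← hK] at hpos
  have hc0 : 0 ≤ c := by rw [hc]; exact integral_nonneg fun _ => norm_nonneg _
  have hd0 : 0 ≤ d := by rw [hd]; exact integral_nonneg fun _ => norm_nonneg _
  have hφa : ∀ a, Continuous fun b => φ a b := fun a =>
    hφ.comp (f := fun b => (a, b)) (by fun_prop)
  have hφb : ∀ b, Continuous fun a => φ a b := fun b =>
    hφ.comp (f := fun a => (a, b)) (by fun_prop)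
  have main : ∀ ε : ℝ, 0 < ε → ε ≤ 1 → K ≤ ε * (c + 2 * d + 2) := by
    intro ε hε hε1
    obtain ⟨G, hG1, hG2, hG3, hG4⟩ := H434R3.CcDense.dense_L1 hw hε
    obtain ⟨F, hF1, hF2, hF3, hF4⟩ := H434R3.CcDense.dense_L1 hf hε
    have hGc : Continuous fun a => ∫ b, G b * φ a b ∂μ := by
      rw [← continuousOn_univ]
      apply continuousOn_integral_of_compact_support hG1
      · exact ((hG3.comp continuous_snd).mul hφ).continuousOn
      · intro p x _ hx
        rw [image_eq_zero_of_notMem_tsupport hx, zero_mul]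
    have hGi : ∫ b, ‖G b‖ ∂μ ≤ d + ε := by
      calc ∫ b, ‖G b‖ ∂μ ≤ ∫ b, (‖w b‖ + ‖w b - G b‖) ∂μ :=
            integral_mono hG4.norm (hw.norm.add (hw.sub hG4).norm) (fun b => by
              have h1 := norm_sub_norm_le (G b) (w b)
              rw [norm_sub_rev] at h1
              show ‖G b‖ ≤ ‖w b‖ + ‖w b - G b‖
              linarith)
        _ = d + ∫ b, ‖w b - G b‖ ∂μ := by
            rw [hd]; exact integral_add hw.norm (hw.sub hG4).norm
        _ ≤ d + ε := by linarith
    have hGn : ∀ a, ‖∫ b, G b * φ a b ∂μ‖ ≤ d + ε := by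
      intro a
      refine (norm_int_mul hG4 (hb a)).trans ?_
      rw [mul_one]
      exact hGi
    have hwG : ∀ a, (∫ b, w b * φ a b ∂μ) - (∫ b, G b * φ a b ∂μ) =
        ∫ b, (w b - G b) * φ a b ∂μ := by
      intro a
      rw [← integral_sub (int_mul hw (hφa a).aestronglyMeasurable (hb a))
        (int_mul hG4 (hφa a).aestronglyMeasurable (hb a))]
      congr 1
      ext b
      ring
    have hwGn : ∀ a, ‖(∫ b, w b * φ a b ∂μ) - (∫ b, G b * φ a b ∂μ)‖ ≤ ε := by
      intro a
      rw [hwG a]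
      refine (norm_int_mul (hw.sub hG4) (hb a)).trans ?_
      rw [mul_one]
      exact hG2
    have i2 : Integrable (fun a => f a * (∫ b, G b * φ a b ∂μ)) ν :=
      int_mul hf hGc.aestronglyMeasurable hGn
    have i3 : Integrable (fun a => F a * (∫ b, G b * φ a b ∂μ)) ν :=
      int_mul hF4 hGc.aestronglyMeasurable hGn
    have e1 : ‖(∫ a, f a * (∫ b, w b * φ a b ∂μ) ∂ν) - ∫ a, f a * (∫ b, G b * φ a b ∂μ) ∂ν‖
        ≤ c * ε := by
      rw [← integral_sub hI i2]
      have h1 : (fun a => f a * (∫ b, w b * φ a b ∂μ) - f a * (∫ b, G b * φ a b ∂μ)) =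
          fun a => f a * ((∫ b, w b * φ a b ∂μ) - (∫ b, G b * φ a b ∂μ)) := by
        ext a
        ring
      rw [h1, hc]
      exact norm_int_mul hf hwGn
    have e2 : ‖(∫ a, f a * (∫ b, G b * φ a b ∂μ) ∂ν) - ∫ a, F a * (∫ b, G b * φ a b ∂μ) ∂ν‖
        ≤ ε * (d + ε) := by
      rw [← integral_sub i2 i3]
      have h1 : (fun a => f a * (∫ b, G b * φ a b ∂μ) - F a * (∫ b, G b * φ a b ∂μ)) =
          fun a => (f a - F a) * (∫ b, G b * φ a b ∂μ) := by
        ext a
        ring
      rw [h1]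
      exact (norm_int_mul (hf.sub hF4) hGn).trans
        (mul_le_mul_of_nonneg_right hF2 (by positivity))
    have e3 : ∫ a, F a * (∫ b, G b * φ a b ∂μ) ∂ν = ∫ b, G b * (∫ a, F a * φ a b ∂ν) ∂μ := by
      have h1 : Continuous (Function.uncurry fun a b => F a * (G b * φ a b)) := by
        show Continuous fun q : A × B => F q.1 * (G q.2 * φ q.1 q.2)
        exact (hF3.comp continuous_fst).mul ((hG3.comp continuous_snd).mul hφ)
      have h2 : HasCompactSupport (Function.uncurry fun a b => F a * (G b * φ a b)) := by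
        refine HasCompactSupport.intro (K := tsupport F ×ˢ tsupport G)
          (hF1.isCompact.prod hG1.isCompact) ?_
        rintro ⟨a, b⟩ hq
        show F a * (G b * φ a b) = 0
        by_cases ha : a ∈ tsupport F
        · have hb' : b ∉ tsupport G := fun h => hq ⟨ha, h⟩
          rw [image_eq_zero_of_notMem_tsupport hb', zero_mul, mul_zero]
        · rw [image_eq_zero_of_notMem_tsupport ha, zero_mul]
      have s := integral_integral_swap_of_hasCompactSupport h1 h2 (μ := ν) (ν := μ)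
      have s1 : ∀ a, ∫ b, F a * (G b * φ a b) ∂μ = F a * ∫ b, G b * φ a b ∂μ := fun a =>
        integral_const_mul _ _
      have s2 : ∀ b, ∫ a, F a * (G b * φ a b) ∂ν = G b * ∫ a, F a * φ a b ∂ν := fun b => by
        rw [← integral_const_mul]
        congr 1
        ext a
        ring
      simp only [s1, s2] at s
      exact s
    have e4 : ∀ b, ‖∫ a, F a * φ a b ∂ν‖ ≤ ε := by
      intro b
      have h1 : ∫ a, F a * φ a b ∂ν = -∫ a, (f a - F a) * φ a b ∂ν := by
        have h2 : ∫ a, (f a - F a) * φ a b ∂ν =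
            (∫ a, f a * φ a b ∂ν) - ∫ a, F a * φ a b ∂ν := by
          rw [← integral_sub (int_mul hf (hφb b).aestronglyMeasurable (fun a => hb a b))
            (int_mul hF4 (hφb b).aestronglyMeasurable (fun a => hb a b))]
          congr 1
          ext a
          ring
        rw [h2, h0 b]
        ring
      rw [h1, norm_neg]
      refine (norm_int_mul (hf.sub hF4) (fun a => hb a b)).trans ?_
      rw [mul_one]
      exact hF2
    have e5 : ‖∫ a, F a * (∫ b, G b * φ a b ∂μ) ∂ν‖ ≤ (d + ε) * ε := by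
      rw [e3]
      exact (norm_int_mul hG4 e4).trans (mul_le_mul_of_nonneg_right hGi hε.le)
    have e6 : K ≤ c * ε + ε * (d + ε) + (d + ε) * ε := by
      rw [hK]
      have h1 : (∫ a, f a * (∫ b, w b * φ a b ∂μ) ∂ν) =
          ((∫ a, f a * (∫ b, w b * φ a b ∂μ) ∂ν) - ∫ a, f a * (∫ b, G b * φ a b ∂μ) ∂ν) +
          ((∫ a, f a * (∫ b, G b * φ a b ∂μ) ∂ν) - ∫ a, F a * (∫ b, G b * φ a b ∂μ) ∂ν) +
          ∫ a, F a * (∫ b, G b * φ a b ∂μ) ∂ν := by ring
      rw [h1]
      exact (norm_add₃_le).trans (add_le_add (add_le_add e1 e2) e5)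
    nlinarith [mul_nonneg hε.le (sub_nonneg.2 hε1)]
  have hs : 0 < c + 2 * d + 2 := by positivity
  have h1 := main (min 1 (K / (2 * (c + 2 * d + 2)))) (lt_min one_pos (by positivity))
    (min_le_left _ _)
  have h2 : min 1 (K / (2 * (c + 2 * d + 2))) * (c + 2 * d + 2) ≤
      K / (2 * (c + 2 * d + 2)) * (c + 2 * d + 2) :=
    mul_le_mul_of_nonneg_right (min_le_right _ _) hs.le
  have h3 : K / (2 * (c + 2 * d + 2)) * (c + 2 * d + 2) = K / 2 := by
    field_simp
  linarith

theorem t_PKF : S_PKF := by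
  intro X _ _ _ _ _ _ _ μ _ _ _ _ ν _ _ f w hf hw h0 x
  have hce : Continuous fun q : PontryaginDual X × X => ((q.1 q.2 : Circle) : ℂ) :=
    Pool.Agent.H1R3.BT.cont_eval
  have hcx : ∀ y : X, Continuous fun q : PontryaginDual X × X => ((q.1 y : Circle) : ℂ) :=
    fun y => hce.comp (f := fun q : PontryaginDual X × X => (q.1, y)) (by fun_prop)
  constructor
  · have h := key ν μ (fun γ y => ((γ y : Circle) : ℂ) * ((γ x : Circle) : ℂ))
      (hce.mul (hcx x)) (fun γ y => by rw [norm_mul, Circle.norm_coe, Circle.norm_coe, mul_one])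
      f w hf hw (fun y => by
        have h1 := h0 (y * x)
        rw [← h1]
        congr 1
        ext γ
        rw [map_mul, Circle.coe_mul])
    rw [← h]
    congr 1
    ext γ
    rw [mul_assoc, ← integral_mul_const]
    congr 2
    ext y
    ring
  · have hwc : Integrable (fun y => (starRingEnd ℂ) (w y)) μ := by
      have := Complex.conjCLE.toContinuousLinearMap.integrable_comp hw
      exact this
    have h := key ν μ (fun γ y => (starRingEnd ℂ) ((γ y : Circle) : ℂ) * ((γ x : Circle) : ℂ))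
      ((Complex.continuous_conj.comp hce).mul (hcx x))
      (fun γ y => by
        rw [norm_mul, RCLike.norm_conj, Circle.norm_coe, Circle.norm_coe, mul_one])
      f (fun y => (starRingEnd ℂ) (w y)) hf hwc (fun y => by
        have h1 := h0 (y⁻¹ * x)
        rw [← h1]
        congr 1
        ext γ
        rw [map_mul, map_inv, Circle.coe_mul, Circle.coe_inv_eq_conj])
    rw [← h]
    congr 1
    ext γ
    rw [mul_assoc, ← integral_conj, ← integral_mul_const]
    congr 2
    ext y
    rw [map_mul]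
    ring

end Pool.Agent.Q149.RX
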